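import Mathlib

set_option autoImplicit false

/-! # Project KT: the weight of the good sets, abstract form -/

namespace Pool.Agent.L7h82.KT

open Finset

open Classical in
theorem fin_core {ι : Type*} (P : Finset ι) (CT tc : ι → ℝ) (hCT : ∀ D ∈ P, 0 ≤ CT D)
    (C x L δ kk N K : ℝ) (hC : 0 < C) (hx0 : 0 < x) (hL : 0 ≤ L) (hδ : 0 < δ) (hδ1 : δ ≤ 1) (hkk : 0 ≤ kk)
    (hU : ∀ D ∈ P, L * tc D ≤ C * CT D * x + kk * L)
    (hA : (1 - δ / 2) * x * ∑ D ∈ P, CT D ≤ L * ∑ D ∈ P, tc D)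
    (hcard : (P.card : ℝ) ≤ N) (hN : N ≤ K * C * ∑ D ∈ P, CT D) (hx : kk * L * (K * C) ≤ δ / 4 * x) :
    δ / (4 * C) * ∑ D ∈ P, CT D ≤
      ∑ D ∈ P.filter (fun D => 0 < CT D ∧ (1 - δ) * (CT D * x) ≤ L * tc D), CT D := by
  set S := ∑ D ∈ P, CT D with hS
  set g : ι → Prop := fun D => 0 < CT D ∧ (1 - δ) * (CT D * x) ≤ L * tc D with hg
  set Sg := ∑ D ∈ P.filter g, CT D with hSg
  have hS0 : 0 ≤ S := sum_nonneg hCT
  have hkL : 0 ≤ kk * L := by positivity
  have hsplit : L * ∑ D ∈ P, tc D = ∑ D ∈ P.filter g, L * tc D + ∑ D ∈ P.filter (fun D => ¬ g D), L * tc D := by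
    rw [mul_sum, sum_filter_add_sum_filter_not]
  have h1 : ∑ D ∈ P.filter g, L * tc D ≤ C * x * Sg + kk * L * ((P.filter g).card : ℝ) := by
    calc ∑ D ∈ P.filter g, L * tc D ≤ ∑ D ∈ P.filter g, (C * x * CT D + kk * L) := by
          refine sum_le_sum fun D hD => ?_
          have := hU D (mem_filter.1 hD).1
          linarith [this]
      _ = C * x * Sg + kk * L * ((P.filter g).card : ℝ) := by
          rw [sum_add_distrib, ← mul_sum, sum_const, nsmul_eq_mul]; ring
  have h2 : ∑ D ∈ P.filter (fun D => ¬ g D), L * tc D ≤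
      (1 - δ) * x * S + kk * L * ((P.filter (fun D => ¬ g D)).card : ℝ) := by
    have h3 : ∑ D ∈ P.filter (fun D => ¬ g D), L * tc D ≤
        ∑ D ∈ P.filter (fun D => ¬ g D), ((1 - δ) * x * CT D + kk * L) := by
      refine sum_le_sum fun D hD => ?_
      obtain ⟨hDP, hDg⟩ := mem_filter.1 hD
      rcases (hCT D hDP).lt_or_eq with h | h
      · have h4 : ¬ ((1 - δ) * (CT D * x) ≤ L * tc D) := fun h5 => hDg ⟨h, h5⟩
        push Not at h4
        have h5 : (1 - δ) * (CT D * x) = (1 - δ) * x * CT D := by ring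
        linarith
      · have := hU D hDP
        rw [← h] at this ⊢
        simpa using this
    have h4 : ∑ D ∈ P.filter (fun D => ¬ g D), CT D ≤ S := by
      rw [hS]
      exact sum_le_sum_of_subset_of_nonneg (filter_subset _ _) (fun D hD _ => hCT D hD)
    have h5 : ∑ D ∈ P.filter (fun D => ¬ g D), ((1 - δ) * x * CT D + kk * L) =
        (1 - δ) * x * ∑ D ∈ P.filter (fun D => ¬ g D), CT D +
          kk * L * ((P.filter (fun D => ¬ g D)).card : ℝ) := by
      rw [sum_add_distrib, ← mul_sum, sum_const, nsmul_eq_mul]; ring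
    have h6 : (1 - δ) * x * ∑ D ∈ P.filter (fun D => ¬ g D), CT D ≤ (1 - δ) * x * S :=
      mul_le_mul_of_nonneg_left h4 (mul_nonneg (by linarith) hx0.le)
    linarith
  have hc : ((P.filter g).card : ℝ) + ((P.filter (fun D => ¬ g D)).card : ℝ) = (P.card : ℝ) := by
    exact_mod_cast card_filter_add_card_filter_not (s := P) g
  have h7 : (1 - δ / 2) * x * S ≤ C * x * Sg + (1 - δ) * x * S + kk * L * (P.card : ℝ) := by
    calc (1 - δ / 2) * x * S ≤ L * ∑ D ∈ P, tc D := hA
      _ ≤ (C * x * Sg + kk * L * ((P.filter g).card : ℝ)) +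
          ((1 - δ) * x * S + kk * L * ((P.filter (fun D => ¬ g D)).card : ℝ)) := by
          rw [hsplit]; exact add_le_add h1 h2
      _ = _ := by rw [← hc]; ring
  have h8 : kk * L * (P.card : ℝ) ≤ δ / 4 * x * S := by
    calc kk * L * (P.card : ℝ) ≤ kk * L * (K * C * S) :=
          mul_le_mul_of_nonneg_left (hcard.trans hN) hkL
      _ = kk * L * (K * C) * S := by ring
      _ ≤ δ / 4 * x * S := mul_le_mul_of_nonneg_right hx hS0
  have h9 : δ / 4 * x * S ≤ C * x * Sg := by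
    have e1 : (1 - δ / 2) * x * S = (1 - δ) * x * S + δ / 2 * x * S := by ring
    have e2 : δ / 2 * x * S = δ / 4 * x * S + δ / 4 * x * S := by ring
    linarith
  have h10 : δ / 4 * S ≤ C * Sg := by
    have e1 : δ / 4 * x * S = x * (δ / 4 * S) := by ring
    have e2 : C * x * Sg = x * (C * Sg) := by ring
    rw [e1, e2] at h9
    exact le_of_mul_le_mul_left h9 hx0
  have e3 : δ / (4 * C) * S = (δ / 4 * S) / C := by field_simp
  rw [e3, div_le_iff₀ hC]
  linarith

end Pool.Agent.L7h82.KT
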