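import Pool.Agent.L7h72.KT.Stm2
import Pool.Agent.H387R2.U2
import Pool.Agent.L7h82.KT.FinCore

set_option autoImplicit false

/-! # Project KT: the final statement from the average and the uniform upper bound -/

namespace Pool.Agent.L7h82.KT

open Finset Pool.Agent.L7h72.KT
open Pool.Agent.H387R2.Uni (nuT locT CT Adm)

theorem log_ev (M : ℝ) (n : ℕ) : ∃ X : ℝ, ∀ x : ℝ, X ≤ x → M * Real.log x ^ n ≤ x := by
  have h := (Real.isLittleO_pow_log_id_atTop (n := n)).bound (show (0 : ℝ) < 1 / (|M| + 1) by positivity)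
  obtain ⟨X, hX⟩ := Filter.eventually_atTop.1 h
  refine ⟨max X 0, fun x hx => ?_⟩
  have h1 := hX x (le_trans (le_max_left _ _) hx)
  have hx0 : 0 ≤ x := le_trans (le_max_right _ _) hx
  simp only [id, Real.norm_eq_abs, abs_of_nonneg hx0] at h1
  have hM : 0 < |M| + 1 := by positivity
  rw [one_div, inv_mul_eq_div, le_div_iff₀ hM] at h1
  calc M * Real.log x ^ n ≤ |M * Real.log x ^ n| := le_abs_self _
    _ = |M| * |Real.log x ^ n| := abs_mul _ _
    _ ≤ |Real.log x ^ n| * (|M| + 1) := by nlinarith [abs_nonneg (Real.log x ^ n)]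
    _ ≤ x := h1

theorem s_FIN (h1 : S_AVG) (h2 : S_UPP) : S_FIN := by
  classical
  intro k hk
  obtain ⟨C, hC, hUPP⟩ := h2 k (by omega)
  have hk0 : (0 : ℝ) < k := by exact_mod_cast (by omega : 0 < k)
  have hf : (0 : ℝ) < (k.factorial : ℝ) := by exact_mod_cast k.factorial_pos
  set c : ℝ := min (1 / (64 * (k : ℝ) ^ 2)) (min (1 / (16 * k.factorial * C)) (1 / (4 * C))) with hc
  have hc0 : 0 < c := by
    rw [hc]; refine lt_min (by positivity) (lt_min (by positivity) (by positivity))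
  have hc1 : c ≤ 1 / (64 * (k : ℝ) ^ 2) := min_le_left _ _
  have hc2 : c ≤ 1 / (16 * k.factorial * C) := (min_le_right _ _).trans (min_le_left _ _)
  have hc3 : c ≤ 1 / (4 * C) := (min_le_right _ _).trans (min_le_right _ _)
  refine ⟨c, hc0, fun B U => ?_⟩
  obtain ⟨X1, hX1⟩ := h1 k hk B (U + 1)
  obtain ⟨X2, hX2⟩ := hUPP B
  obtain ⟨X3, hX3⟩ := log_ev (16 * k.factorial * k) k
  obtain ⟨X4, hX4⟩ := log_ev (64 * k * k.factorial * C) (k + U)
  refine ⟨max (max X1 X2) (max (max X3 X4) (Real.exp 2)), fun x hx δ hδ hδU hδ1 A hAB hA => ?_⟩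
  have hx1 : X1 ≤ x := le_trans (le_trans (le_max_left _ _) (le_max_left _ _)) hx
  have hx2 : X2 ≤ x := le_trans (le_trans (le_max_right _ _) (le_max_left _ _)) hx
  have hx3 : X3 ≤ x := le_trans (le_trans (le_trans (le_max_left _ _) (le_max_left _ _)) (le_max_right _ _)) hx
  have hx4 : X4 ≤ x := le_trans (le_trans (le_trans (le_max_right _ _) (le_max_left _ _)) (le_max_right _ _)) hx
  have hx5 : Real.exp 2 ≤ x := le_trans (le_trans (le_max_right _ _) (le_max_right _ _)) hx
  have hx0 : 0 < x := lt_of_lt_of_le (Real.exp_pos 2) hx5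
  have hl : 2 ≤ Real.log x := (Real.le_log_iff_exp_le hx0).2 hx5
  set l := Real.log x with hld
  have hl0 : 0 < l := by linarith
  set P := A.powersetCard k with hP
  set S := ∑ D ∈ P, CT D with hS
  have hCT : ∀ D ∈ P, 0 ≤ CT D := fun D _ => Pool.Agent.H387R2.Uni.CT_nonneg D
  have hS0 : 0 ≤ S := sum_nonneg hCT
  have hAV := hX1 x hx1 (δ / 2) (by positivity) (by
      rw [pow_succ]
      have : 1 * 2 ≤ (δ * l ^ U) * l := mul_le_mul hδU hl (by norm_num) (by positivity)
      nlinarith) (by linarith) A hAB (by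
      have h3 : 32 * (k : ℝ) ^ 2 * l ≤ 32 * (k : ℝ) ^ 2 * (c * δ * A.card) :=
        mul_le_mul_of_nonneg_left hA (by positivity)
      have h4 : 32 * (k : ℝ) ^ 2 * c ≤ 1 / 2 := by
        calc 32 * (k : ℝ) ^ 2 * c ≤ 32 * (k : ℝ) ^ 2 * (1 / (64 * (k : ℝ) ^ 2)) :=
              mul_le_mul_of_nonneg_left hc1 (by positivity)
          _ = 1 / 2 := by field_simp; norm_num
      have h5 : 32 * (k : ℝ) ^ 2 * (c * δ * A.card) = (32 * (k : ℝ) ^ 2 * c) * (δ * A.card) := by ring
      rw [h5] at h3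
      have h6 : (32 * (k : ℝ) ^ 2 * c) * (δ * A.card) ≤ 1 / 2 * (δ * A.card) :=
        mul_le_mul_of_nonneg_right h4 (by positivity)
      linarith)
  obtain ⟨hAV1, hAV2⟩ := hAV
  have hU : ∀ D ∈ P, l ^ k * (tc x D : ℝ) ≤ C * CT D * x + k * l ^ k := by
    intro D hD
    obtain ⟨hDA, hDk⟩ := mem_powersetCard.1 hD
    have := hX2 x hx2 D hDk (fun d hd => hAB d (hDA hd))
    linarith [mul_comm (tc x D : ℝ) (l ^ k)]
  have hcard : (P.card : ℝ) ≤ (A.card : ℝ) ^ k := by
    rw [hP, card_powersetCard]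
    exact_mod_cast Nat.choose_le_pow A.card k
  have hW : l ^ k * ∑ D ∈ P, (tc x D : ℝ) ≤ C * x * S + k * l ^ k * (A.card : ℝ) ^ k := by
    calc l ^ k * ∑ D ∈ P, (tc x D : ℝ) = ∑ D ∈ P, l ^ k * (tc x D : ℝ) := mul_sum _ _ _
      _ ≤ ∑ D ∈ P, (C * x * CT D + k * l ^ k) := by
          refine sum_le_sum fun D hD => ?_
          linarith [hU D hD]
      _ = C * x * S + k * l ^ k * (P.card : ℝ) := by
          rw [sum_add_distrib, ← mul_sum, sum_const, nsmul_eq_mul]; ring
      _ ≤ _ := by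
          have : (0 : ℝ) ≤ k * l ^ k := by positivity
          have := mul_le_mul_of_nonneg_left hcard this
          linarith
  have hN : (A.card : ℝ) ^ k ≤ (16 * k.factorial) * C * S := by
    set N := (A.card : ℝ) ^ k with hNd
    have hN0 : 0 ≤ N := by positivity
    have h3 : x * N ≤ 8 * k.factorial * (C * x * S + k * l ^ k * N) :=
      hAV2.trans (mul_le_mul_of_nonneg_left hW (by positivity))
    have h4 : 16 * k.factorial * k * l ^ k * N ≤ x * N := mul_le_mul_of_nonneg_right (hX3 x hx3) hN0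
    have h5 : x * N ≤ x * ((16 * k.factorial) * C * S) := by nlinarith
    exact le_of_mul_le_mul_left h5 hx0
  refine ⟨?_, ?_, ?_⟩
  · refine le_trans ?_ hAV1
    have : (1 - δ) * x ≤ (1 - δ / 2) * x := mul_le_mul_of_nonneg_right (by linarith) hx0.le
    exact mul_le_mul_of_nonneg_right this hS0
  · have h3 : c * (A.card : ℝ) ^ k ≤ 1 / (16 * k.factorial * C) * (A.card : ℝ) ^ k :=
      mul_le_mul_of_nonneg_right hc2 (by positivity)
    refine h3.trans ?_
    rw [one_div, inv_mul_le_iff₀ (by positivity)]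
    exact hN
  · have h3 : c * δ * S ≤ δ / (4 * C) * S := by
      refine mul_le_mul_of_nonneg_right ?_ hS0
      calc c * δ ≤ 1 / (4 * C) * δ := mul_le_mul_of_nonneg_right hc3 hδ.le
        _ = δ / (4 * C) := by ring
    refine h3.trans ?_
    have h4 := fin_core P CT (fun D => (tc x D : ℝ)) hCT C x (l ^ k) δ k ((A.card : ℝ) ^ k)
      (16 * k.factorial) hC hx0 (by positivity) hδ hδ1 hk0.le hU hAV1 hcard hN (by
        have h5 : 64 * k * k.factorial * C * l ^ (k + U) ≤ x := hX4 x hx4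
        have h6 : (64 * k * k.factorial * C * l ^ k) * 1 ≤ (64 * k * k.factorial * C * l ^ k) * (δ * l ^ U) :=
          mul_le_mul_of_nonneg_left hδU (by positivity)
        have h7 : (64 * k * k.factorial * C * l ^ k) * (δ * l ^ U) =
            δ * (64 * k * k.factorial * C * l ^ (k + U)) := by rw [pow_add]; ring
        have h8 : δ * (64 * k * k.factorial * C * l ^ (k + U)) ≤ δ * x :=
          mul_le_mul_of_nonneg_left h5 hδ.le
        linarith)
    convert h4 using 2

end Pool.Agent.L7h82.KT
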