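import Mathlib

set_option autoImplicit false

/-! # Project KT: the counting part BIN and the elementary part FAC -/

namespace Pool.Agent.L7h82.KT

open Finset

theorem bin_aux (P : ℕ → Prop) [DecidablePred P] (M A : Finset ℕ) (k : ℕ) :
    ∑ D ∈ A.powersetCard k, (M.filter (fun m => ∀ d ∈ D, P (m + d))).card =
      ∑ m ∈ M, ((A.filter (fun a => P (m + a))).card).choose k := by
  have h0 : ∀ D : Finset ℕ, (M.filter (fun m => ∀ d ∈ D, P (m + d))).card =
      ∑ m ∈ M, if (∀ d ∈ D, P (m + d)) then 1 else 0 := fun D => Finset.card_filter _ _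
  rw [Finset.sum_congr rfl (fun D _ => h0 D), Finset.sum_comm]
  refine Finset.sum_congr rfl fun m _ => ?_
  rw [← Finset.card_filter, ← Finset.card_powersetCard]
  congr 1
  ext D
  simp only [Finset.mem_filter, Finset.mem_powersetCard, Finset.subset_iff]
  constructor
  · rintro ⟨⟨h1, h2⟩, h3⟩
    exact ⟨fun x hx => ⟨h1 hx, h3 x hx⟩, h2⟩
  · rintro ⟨h1, h2⟩
    exact ⟨⟨fun x hx => (h1 hx).1, h2⟩, fun x hx => (h1 hx).2⟩

theorem fac_aux (n k : ℕ) (hk : 1 ≤ k) :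
    (k.factorial : ℝ) * (n.choose k : ℝ) ≤ (n : ℝ) ^ k ∧
      (n : ℝ) ^ k - (k : ℝ) ^ 2 * (n : ℝ) ^ (k - 1) ≤ (k.factorial : ℝ) * (n.choose k : ℝ) := by
  have e : (k.factorial : ℝ) * (n.choose k : ℝ) = (n.descFactorial k : ℝ) := by
    rw [Nat.descFactorial_eq_factorial_mul_choose]; push_cast; ring
  rw [e]
  constructor
  · exact_mod_cast Nat.descFactorial_le_pow n k
  · induction k, hk using Nat.le_induction with
    | base => simp [Nat.descFactorial_succ]
    | succ k hk ih =>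
      obtain ⟨j, rfl⟩ : ∃ j, k = j + 1 := ⟨k - 1, by omega⟩
      have ih' := ih (by rw [Nat.descFactorial_eq_factorial_mul_choose]; push_cast; ring)
      rw [Nat.descFactorial_succ]
      simp only [Nat.add_sub_cancel] at ih' ⊢
      push_cast at ih' ⊢
      have hn : (0 : ℝ) ≤ n := Nat.cast_nonneg n
      have hj : (0 : ℝ) ≤ j := Nat.cast_nonneg j
      have hD : (0 : ℝ) ≤ (n.descFactorial (j + 1) : ℝ) := Nat.cast_nonneg _
      have hDle : (n.descFactorial (j + 1) : ℝ) ≤ (n : ℝ) ^ (j + 1) := by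
        exact_mod_cast Nat.descFactorial_le_pow n (j + 1)
      have hp : (0 : ℝ) ≤ (n : ℝ) ^ j := by positivity
      have hp1 : (0 : ℝ) ≤ (n : ℝ) ^ (j + 1) := by positivity
      have hsub : (n : ℝ) - (j + 1) ≤ ((n - (j + 1) : ℕ) : ℝ) := by
        rcases le_total (j + 1) n with h | h
        · rw [Nat.cast_sub h]; push_cast; linarith
        · have : ((n : ℝ)) ≤ ((j + 1 : ℕ) : ℝ) := by exact_mod_cast h
          push_cast at this
          have h2 : (0 : ℝ) ≤ ((n - (j + 1) : ℕ) : ℝ) := Nat.cast_nonneg _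
          linarith
      have h1 : ((n : ℝ) - (j + 1)) * (n.descFactorial (j + 1) : ℝ) ≤
          ((n - (j + 1) : ℕ) : ℝ) * (n.descFactorial (j + 1) : ℝ) :=
        mul_le_mul_of_nonneg_right hsub hD
      refine le_trans ?_ h1
      have h2 : (n : ℝ) * ((n : ℝ) ^ (j + 1) - ((j : ℝ) + 1) ^ 2 * (n : ℝ) ^ j) ≤
          (n : ℝ) * (n.descFactorial (j + 1) : ℝ) := mul_le_mul_of_nonneg_left ih' hn
      have h3 : ((j : ℝ) + 1) * (n.descFactorial (j + 1) : ℝ) ≤ ((j : ℝ) + 1) * (n : ℝ) ^ (j + 1) :=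
        mul_le_mul_of_nonneg_left hDle (by linarith)
      have e1 : (n : ℝ) ^ (j + 1 + 1) = (n : ℝ) * (n : ℝ) ^ (j + 1) := by ring
      have e2 : (n : ℝ) * ((n : ℝ) ^ (j + 1) - ((j : ℝ) + 1) ^ 2 * (n : ℝ) ^ j) =
          (n : ℝ) * (n : ℝ) ^ (j + 1) - ((j : ℝ) + 1) ^ 2 * (n : ℝ) ^ (j + 1) := by ring
      rw [e2] at h2
      rw [e1]
      have h4 : ((j : ℝ) + 1) ^ 2 * (n : ℝ) ^ (j + 1) + ((j : ℝ) + 1) * (n : ℝ) ^ (j + 1) ≤
          ((j : ℝ) + 1 + 1) ^ 2 * (n : ℝ) ^ (j + 1) := by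
        rw [← add_mul]
        apply mul_le_mul_of_nonneg_right _ hp1
        nlinarith
      nlinarith

end Pool.Agent.L7h82.KT
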