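import Pool.Agent.L7h72.KT.Stm
import Pool.Agent.L7h82.KT.Bin

set_option autoImplicit false

/-! # Project KT: the parts BIN and FAC -/

namespace Pool.Agent.L7h82.KT

open Pool.Agent.L7h72.KT

theorem s_BIN : S_BIN := fun P _ M A k => bin_aux P M A k

theorem s_FAC : S_FAC := fun n k hk => fac_aux n k hk

end Pool.Agent.L7h82.KT
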